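import Pool.Agent.Q263.IW.Def

set_option autoImplicit false

/-! Job IWP-DER (helper263). -/

namespace Pool.Agent.Q195.IW

open Q263.IW Q263.IV

variable {E S V : Type} [NormedAddCommGroup E] [NormedSpace ℝ E]
  [NormedAddCommGroup S] [NormedSpace ℝ S] [NormedAddCommGroup V] [NormedSpace ℝ V]

lemma hasF {F : S × E → V} (hF : ContDiff ℝ 1 F) (s : S) (p : E) :
    HasFDerivAt (fun s => F (s, p)) ((fderiv ℝ F (s, p)).comp (ContinuousLinearMap.inl ℝ S E)) s := by
  have h2 : HasFDerivAt (fun x : S => (x, p)) (ContinuousLinearMap.inl ℝ S E) s :=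
    hasFDerivAt_prodMk_left s p
  have h3 : HasFDerivAt F (fderiv ℝ F (s, p)) (s, p) :=
    ((hF.differentiable (by norm_num)) _).hasFDerivAt
  exact h3.comp s h2

lemma fd_eq {F : S × E → V} (hF : ContDiff ℝ 1 F) (s c : S) (p : E) :
    fderiv ℝ (fun s => F (s, p)) s c = fderiv ℝ F (s, p) (c, 0) := by
  rw [(hasF hF s p).fderiv]
  simp

lemma cont {F : S × E → V} (hF : ContDiff ℝ 1 F) :
    Continuous (fun z : S × S × E => fderiv ℝ (fun s => F (s, z.2.2)) z.1 z.2.1) := by
  have h1 : (fun z : S × S × E => fderiv ℝ (fun s => F (s, z.2.2)) z.1 z.2.1) =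
      fun z : S × S × E => fderiv ℝ F (z.1, z.2.2) (z.2.1, 0) := by
    funext z
    exact fd_eq hF _ _ _
  rw [h1]
  have h2 : Continuous (fderiv ℝ F) := hF.continuous_fderiv (by norm_num)
  have h3 : Continuous (fun z : S × S × E => fderiv ℝ F (z.1, z.2.2)) :=
    h2.comp (by fun_prop)
  exact h3.clm_apply (by fun_prop)

lemma hasD {F : S × E → V} (hF : ContDiff ℝ 1 F) (s c : S) (p : E) :
    HasDerivAt (fun r : ℝ => F (s + r • c, p)) (fderiv ℝ (fun s => F (s, p)) s c) 0 := by
  have h1 : HasDerivAt (fun r : ℝ => s + r • c) c 0 := by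
    have := ((hasDerivAt_id (0 : ℝ)).smul_const c).const_add s
    simpa using this
  have h2 : HasFDerivAt (fun s => F (s, p)) (fderiv ℝ (fun s => F (s, p)) s) (s + (0 : ℝ) • c) := by
    rw [zero_smul, add_zero]
    have := hasF hF s p
    rw [this.fderiv]
    exact this
  exact h2.comp_hasDerivAt (0 : ℝ) h1

theorem der3 : S_DER := by
  intro E _ _ _ S _ _ _ h hh
  have h1 : ContDiff ℝ 1 (fun z : S × E => h z.1 z.2) := hh.of_le (by norm_num)
  have h2 : ContDiff ℝ 1 (fun z : S × E => gradient (h z.1) z.2) := contDiff_grad2 hh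
  exact ⟨cont h1, cont h2, fun s c p => hasD h1 s c p, fun s c p => hasD h2 s c p⟩

end Pool.Agent.Q195.IW
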